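import Pool.Agent.Y493.Br.Stm

set_option autoImplicit false

/-!
Structure equations of a smooth principal frame of a hypersurface of the unit four sphere.
-/

namespace Y978.BR

open Y493.Br
open scoped BigOperators

abbrev inf : WithTop ℕ∞ := ((⊤ : ℕ∞) : WithTop ℕ∞)

section calculus

variable {W : Type} [NormedAddCommGroup W] [NormedSpace ℝ W]

theorem diffAt {V : Set E3} (hV : IsOpen V) {F : E3 → W} (hF : ContDiffOn ℝ inf F V)
    {x : E3} (hx : x ∈ V) : DifferentiableAt ℝ F x :=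
  ((hF.contDiffAt (hV.mem_nhds hx)).differentiableAt (by simp [inf]))

theorem smD {V : Set E3} (hV : IsOpen V) {F : E3 → W} (hF : ContDiffOn ℝ inf F V) :
    ContDiffOn ℝ inf (fderiv ℝ F) V :=
  hF.fderiv_of_isOpen hV (by simp [inf])

theorem smDv {V : Set E3} (hV : IsOpen V) {F : E3 → W} (hF : ContDiffOn ℝ inf F V)
    {X : E3 → E3} (hX : ContDiffOn ℝ inf X V) :
    ContDiffOn ℝ inf (fun y => fderiv ℝ F y (X y)) V :=
  (smD hV hF).clm_apply hX

theorem fderiv_dir {V : Set E3} (hV : IsOpen V) {F : E3 → W} (hF : ContDiffOn ℝ inf F V)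
    {X : E3 → E3} (hX : ContDiffOn ℝ inf X V) {x : E3} (hx : x ∈ V) (v : E3) :
    fderiv ℝ (fun y => fderiv ℝ F y (X y)) x v
      = fderiv ℝ (fderiv ℝ F) x v (X x) + fderiv ℝ F x (fderiv ℝ X x v) := by
  have h1 : HasFDerivAt (fderiv ℝ F) (fderiv ℝ (fderiv ℝ F) x) x :=
    (diffAt hV (smD hV hF) hx).hasFDerivAt
  have h2 : HasFDerivAt X (fderiv ℝ X x) x := (diffAt hV hX hx).hasFDerivAt
  have h3 := (h1.clm_apply h2).fderiv
  rw [h3]
  simp [add_comm]

/-- commutator of the derivatives in the direction of two vector fields -/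
theorem comm {V : Set E3} (hV : IsOpen V) {F : E3 → W} (hF : ContDiffOn ℝ inf F V)
    {X Y : E3 → E3} (hX : ContDiffOn ℝ inf X V) (hY : ContDiffOn ℝ inf Y V)
    {x : E3} (hx : x ∈ V) :
    fderiv ℝ (fun y => fderiv ℝ F y (Y y)) x (X x)
      - fderiv ℝ (fun y => fderiv ℝ F y (X y)) x (Y x)
      = fderiv ℝ F x (fderiv ℝ Y x (X x) - fderiv ℝ X x (Y x)) := by
  rw [fderiv_dir hV hF hY hx, fderiv_dir hV hF hX hx, map_sub]
  have hs : IsSymmSndFDerivAt ℝ F x :=
    (hF.contDiffAt (hV.mem_nhds hx)).isSymmSndFDerivAt (by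
      rw [minSmoothness_of_isRCLikeNormedField]
      exact WithTop.coe_le_coe.2 le_top)
  rw [hs (X x) (Y x)]
  abel

end calculus

theorem fderiv_inner_dir {V : Set E3} (hV : IsOpen V) {A B : E3 → E5}
    (hA : ContDiffOn ℝ inf A V) (hB : ContDiffOn ℝ inf B V) {x : E3} (hx : x ∈ V) (v : E3) :
    fderiv ℝ (fun y => (inner ℝ (A y) (B y) : ℝ)) x v
      = inner ℝ (A x) (fderiv ℝ B x v) + inner ℝ (fderiv ℝ A x v) (B x) :=
  fderiv_inner_apply ℝ (diffAt hV hA hx) (diffAt hV hB hx) v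

/-- if the inner product is constant on `V`, its derivative vanishes -/
theorem inner_const {V : Set E3} (hV : IsOpen V) {A B : E3 → E5}
    (hA : ContDiffOn ℝ inf A V) (hB : ContDiffOn ℝ inf B V) {r : ℝ}
    (hr : ∀ y ∈ V, (inner ℝ (A y) (B y) : ℝ) = r) {x : E3} (hx : x ∈ V) (v : E3) :
    (inner ℝ (A x) (fderiv ℝ B x v) : ℝ) + inner ℝ (fderiv ℝ A x v) (B x) = 0 := by
  rw [← fderiv_inner_dir hV hA hB hx v]
  have h : (fun y => (inner ℝ (A y) (B y) : ℝ)) =ᶠ[nhds x] fun _ => r :=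
    Filter.eventually_of_mem (hV.mem_nhds hx) hr
  rw [h.fderiv_eq]
  simp

section frame

variable {V : Set E3} {f ν : E3 → E5} {c : ℝ} {E : Fin 3 → E3 → E3} {lam : Fin 3 → E3 → ℝ}

/-- the moving frame -/
noncomputable def XX (f : E3 → E5) (E : Fin 3 → E3 → E3) (j : Fin 3) : E3 → E5 :=
  fun y => fderiv ℝ f y (E j y)

theorem smX (P : PFrame V f ν c E lam) (j : Fin 3) : ContDiffOn ℝ inf (XX f E j) V :=
  smDv P.isOpen P.smf (P.smE j)

theorem f_dir (P : PFrame V f ν c E lam) {x : E3} (hx : x ∈ V) (v : E3) :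
    (inner ℝ (f x) (fderiv ℝ f x v) : ℝ) = 0 := by
  have h := inner_const P.isOpen P.smf P.smf P.normf hx v
  rw [real_inner_comm (f x) (fderiv ℝ f x v)] at h
  linarith

/-- the five vectors -/
noncomputable def fr (f ν : E3 → E5) (E : Fin 3 → E3 → E3) (x : E3) : Fin 5 → E5 :=
  ![f x, ν x, XX f E 0 x, XX f E 1 x, XX f E 2 x]

theorem fr_orth (P : PFrame V f ν c E lam) {x : E3} (hx : x ∈ V) :
    Orthonormal ℝ (fr f ν E x) := by
  have hff := P.normf x hx
  have hnn := P.normν x hx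
  have hfn := P.perp x hx
  have hnf : (inner ℝ (ν x) (f x) : ℝ) = 0 := by rw [real_inner_comm]; exact hfn
  have hXn : ∀ j, (inner ℝ (XX f E j x) (ν x) : ℝ) = 0 := fun j => P.tang x hx _
  have hnX : ∀ j, (inner ℝ (ν x) (XX f E j x) : ℝ) = 0 := fun j => by
    rw [real_inner_comm]; exact hXn j
  have hfX : ∀ j, (inner ℝ (f x) (XX f E j x) : ℝ) = 0 := fun j => f_dir P hx _
  have hXf : ∀ j, (inner ℝ (XX f E j x) (f x) : ℝ) = 0 := fun j => by
    rw [real_inner_comm]; exact hfX j
  have hXX : ∀ i j, (inner ℝ (XX f E i x) (XX f E j x) : ℝ) = if i = j then (1 : ℝ) else 0 :=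
    fun i j => P.orth x hx i j
  rw [orthonormal_iff_ite]
  intro i j
  fin_cases i <;> fin_cases j <;>
    simp [fr, -inner_self_eq_norm_sq_to_K, hff, hnn, hfn, hnf,
      hXn, hnX, hfX, hXf, hXX]

theorem fr_span (P : PFrame V f ν c E lam) {x : E3} (hx : x ∈ V) :
    Submodule.span ℝ (Set.range (fr f ν E x)) = ⊤ :=
  (fr_orth P hx).linearIndependent.span_eq_top_of_card_eq_finrank' (by simp [E5])

/-- Parseval for the moving frame -/
theorem parseval (P : PFrame V f ν c E lam) {x : E3} (hx : x ∈ V) (u w : E5) :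
    (inner ℝ u w : ℝ) = inner ℝ u (f x) * inner ℝ (f x) w + inner ℝ u (ν x) * inner ℝ (ν x) w
      + ∑ m, inner ℝ u (XX f E m x) * inner ℝ (XX f E m x) w := by
  have h := (OrthonormalBasis.mk (fr_orth P hx) (fr_span P hx).ge).sum_inner_mul_inner u w
  rw [← h]
  simp [Fin.sum_univ_succ, fr]
  ring

/-- expansion in the moving frame -/
theorem expand (P : PFrame V f ν c E lam) {x : E3} (hx : x ∈ V) (w : E5) :
    w = (inner ℝ (f x) w : ℝ) • f x + (inner ℝ (ν x) w : ℝ) • ν x
      + ∑ m, (inner ℝ (XX f E m x) w : ℝ) • XX f E m x := by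
  have h := (OrthonormalBasis.mk (fr_orth P hx) (fr_span P hx).ge).sum_repr' w
  conv_lhs => rw [← h]
  simp [Fin.sum_univ_succ, fr]
  abel

theorem Gam_eq (f : E3 → E5) (E : Fin 3 → E3 → E3) (i j k : Fin 3) (x : E3) :
    Gam f E i j k x = inner ℝ (fderiv ℝ (XX f E j) x (E i x)) (XX f E k x) := rfl

theorem G_anti (P : PFrame V f ν c E lam) {x : E3} (hx : x ∈ V) (i j k : Fin 3) :
    Gam f E i j k x = - Gam f E i k j x := by
  have h := inner_const P.isOpen (smX P j) (smX P k) (fun y hy => P.orth y hy j k) hx (E i x)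
  rw [Gam_eq, Gam_eq]
  have h2 : (inner ℝ (fderiv ℝ (XX f E k) x (E i x)) (XX f E j x) : ℝ)
      = inner ℝ (XX f E j x) (fderiv ℝ (XX f E k) x (E i x)) := real_inner_comm _ _
  rw [h2]
  linarith

theorem nu_dir (P : PFrame V f ν c E lam) {x : E3} (hx : x ∈ V) (i : Fin 3) :
    fderiv ℝ ν x (E i x) = -(lam i x) • XX f E i x := P.wein x hx i

theorem X_nu (P : PFrame V f ν c E lam) {x : E3} (hx : x ∈ V) (i j : Fin 3) :
    (inner ℝ (fderiv ℝ (XX f E j) x (E i x)) (ν x) : ℝ) = if i = j then lam i x else 0 := by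
  have h := inner_const P.isOpen (smX P j) P.smν (fun y hy => P.tang y hy (E j y)) hx (E i x)
  rw [nu_dir P hx i, inner_smul_right] at h
  have h2 : (inner ℝ (XX f E j x) (XX f E i x) : ℝ) = if j = i then (1 : ℝ) else 0 :=
    P.orth x hx j i
  rw [h2] at h
  by_cases hij : i = j
  · subst hij; simp at h ⊢; linarith
  · rw [if_neg hij]; rw [if_neg (Ne.symm hij)] at h; linarith

theorem X_f (P : PFrame V f ν c E lam) {x : E3} (hx : x ∈ V) (i j : Fin 3) :
    (inner ℝ (fderiv ℝ (XX f E j) x (E i x)) (f x) : ℝ) = if i = j then -1 else 0 := by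
  have h := inner_const P.isOpen (smX P j) P.smf (r := 0) (fun y hy => by
    rw [real_inner_comm]; exact f_dir P hy (E j y)) hx (E i x)
  have h2 : (inner ℝ (XX f E j x) (fderiv ℝ f x (E i x)) : ℝ) = if j = i then (1 : ℝ) else 0 :=
    P.orth x hx j i
  rw [h2] at h
  by_cases hij : i = j
  · subst hij; simp at h ⊢; linarith
  · rw [if_neg hij]; rw [if_neg (Ne.symm hij)] at h; linarith

/-- the bracket of two frame fields -/
theorem bracket (P : PFrame V f ν c E lam) {x : E3} (hx : x ∈ V) (i j : Fin 3) :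
    fderiv ℝ (E j) x (E i x) - fderiv ℝ (E i) x (E j x)
      = ∑ k, (Gam f E i j k x - Gam f E j i k x) • E k x := by
  apply P.inj x hx
  have h := comm P.isOpen P.smf (P.smE i) (P.smE j) hx
  rw [← h, map_sum]
  simp only [map_smul]
  have e1 := expand P hx (fderiv ℝ (XX f E j) x (E i x) - fderiv ℝ (XX f E i) x (E j x))
  have a1 : (inner ℝ (f x) (fderiv ℝ (XX f E j) x (E i x) - fderiv ℝ (XX f E i) x (E j x)) : ℝ)
      = 0 := by
    rw [real_inner_comm, inner_sub_left, X_f P hx i j, X_f P hx j i]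
    by_cases hij : i = j
    · subst hij; simp
    · rw [if_neg hij, if_neg (Ne.symm hij)]; simp
  have a2 : (inner ℝ (ν x) (fderiv ℝ (XX f E j) x (E i x) - fderiv ℝ (XX f E i) x (E j x)) : ℝ)
      = 0 := by
    rw [real_inner_comm, inner_sub_left, X_nu P hx i j, X_nu P hx j i]
    by_cases hij : i = j
    · subst hij; simp
    · rw [if_neg hij, if_neg (Ne.symm hij)]; simp
  have a3 : ∀ m, (inner ℝ (XX f E m x)
      (fderiv ℝ (XX f E j) x (E i x) - fderiv ℝ (XX f E i) x (E j x)) : ℝ)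
      = Gam f E i j m x - Gam f E j i m x := by
    intro m
    rw [real_inner_comm, inner_sub_left, Gam_eq, Gam_eq]
  rw [a1, a2] at e1
  simp only [a3] at e1
  simp only [zero_smul, zero_add] at e1
  exact e1

theorem comm_frame {W : Type} [NormedAddCommGroup W] [NormedSpace ℝ W]
    (P : PFrame V f ν c E lam) {F : E3 → W} (hF : ContDiffOn ℝ inf F V)
    {x : E3} (hx : x ∈ V) (i j : Fin 3) :
    fderiv ℝ (fun y => fderiv ℝ F y (E j y)) x (E i x)
      - fderiv ℝ (fun y => fderiv ℝ F y (E i y)) x (E j x)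
      = ∑ k, (Gam f E i j k x - Gam f E j i k x) • fderiv ℝ F x (E k x) := by
  rw [comm P.isOpen hF (P.smE i) (P.smE j) hx, bracket P hx i j, map_sum]
  simp only [map_smul]

theorem smG (P : PFrame V f ν c E lam) (i j k : Fin 3) :
    ContDiffOn ℝ inf (Gam f E i j k) V :=
  ContDiffOn.inner ℝ (smDv P.isOpen (smX P j) (P.smE i)) (smX P k)

theorem tors (P : PFrame V f ν c E lam) (g : E3 → ℝ) (hg : ContDiffOn ℝ inf g V)
    {x : E3} (hx : x ∈ V) (i j : Fin 3) :
    dv (E i) (dv (E j) g) x - dv (E j) (dv (E i) g) x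
      = ∑ k, (Gam f E i j k x - Gam f E j i k x) * dv (E k) g x :=
  comm_frame P hg hx i j

/-- derivative of the normal twice -/
theorem nu_dir2 (P : PFrame V f ν c E lam) {x : E3} (hx : x ∈ V) (i j : Fin 3) :
    fderiv ℝ (fun y => fderiv ℝ ν y (E j y)) x (E i x)
      = -(dv (E i) (lam j) x) • XX f E j x - lam j x • fderiv ℝ (XX f E j) x (E i x) := by
  have h : (fun y => fderiv ℝ ν y (E j y)) =ᶠ[nhds x] fun y => -(lam j y) • XX f E j y :=
    Filter.eventually_of_mem (P.isOpen.mem_nhds hx) fun y hy => P.wein y hy j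
  rw [h.fderiv_eq]
  have h1 : HasFDerivAt (lam j) (fderiv ℝ (lam j) x) x :=
    (diffAt P.isOpen (P.smlam j) hx).hasFDerivAt
  have h2 : HasFDerivAt (XX f E j) (fderiv ℝ (XX f E j) x) x :=
    (diffAt P.isOpen (smX P j) hx).hasFDerivAt
  have h3 := (h1.neg.smul h2).fderiv
  have h4 : (fun y => -(lam j y) • XX f E j y) = (-(lam j)) • (XX f E j) := by
    funext y; simp
  rw [h4, h3]
  simp [dv, sub_eq_add_neg, add_comm]

theorem cod (P : PFrame V f ν c E lam) {x : E3} (hx : x ∈ V) (i j k : Fin 3) :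
    (if j = k then dv (E i) (lam j) x else 0) + (lam j x - lam k x) * Gam f E i j k x
      = (if i = k then dv (E j) (lam i) x else 0) + (lam i x - lam k x) * Gam f E j i k x := by
  have h := comm_frame P P.smν hx i j
  rw [nu_dir2 P hx i j, nu_dir2 P hx j i] at h
  simp only [nu_dir P hx] at h
  have hXX : ∀ i j, (inner ℝ (XX f E i x) (XX f E j x) : ℝ) = if i = j then (1 : ℝ) else 0 :=
    fun i j => P.orth x hx i j
  have h2 := congrArg (fun w => (inner ℝ w (XX f E k x) : ℝ)) h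
  simp only [inner_sub_left, inner_smul_left, sum_inner, hXX, ← Gam_eq] at h2
  simp only [map_neg, map_sub, conj_trivial, mul_ite, mul_one, mul_zero, Finset.sum_ite_eq',
    Finset.mem_univ, if_true] at h2
  by_cases h3 : j = k <;> by_cases h4 : i = k <;>
    simp only [h3, h4, if_true, if_false] at h2 ⊢ <;> linarith

theorem gauss (P : PFrame V f ν c E lam) {x : E3} (hx : x ∈ V) (i j k l : Fin 3) :
    dv (E i) (Gam f E j k l) x - dv (E j) (Gam f E i k l) x
      + ∑ m, (Gam f E j k m x * Gam f E i m l x - Gam f E i k m x * Gam f E j m l x)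
      - ∑ m, (Gam f E i j m x - Gam f E j i m x) * Gam f E m k l x
      = (1 + lam i x * lam j x) *
        ((if j = k ∧ i = l then 1 else 0) - (if i = k ∧ j = l then 1 else 0)) := by
  have key : ∀ i j : Fin 3, dv (E i) (Gam f E j k l) x
      = inner ℝ (fderiv ℝ (XX f E k) x (E j x)) (fderiv ℝ (XX f E l) x (E i x))
        + inner ℝ (fderiv ℝ (fun y => fderiv ℝ (XX f E k) y (E j y)) x (E i x)) (XX f E l x) :=
    fun i j => fderiv_inner_dir P.isOpen (smDv P.isOpen (smX P k) (P.smE j)) (smX P l) hx (E i x)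
  have hc := comm_frame P (smX P k) hx i j
  have hc2 := congrArg (fun w => (inner ℝ w (XX f E l x) : ℝ)) hc
  simp only [inner_sub_left, inner_smul_left, sum_inner, ← Gam_eq, conj_trivial] at hc2
  have par : ∀ i j : Fin 3,
      (inner ℝ (fderiv ℝ (XX f E k) x (E j x)) (fderiv ℝ (XX f E l) x (E i x)) : ℝ)
      = (if j = k ∧ i = l then 1 + lam i x * lam j x else 0)
        - ∑ m, Gam f E j k m x * Gam f E i m l x := by
    intro i j
    rw [parseval P hx, real_inner_comm (fderiv ℝ (XX f E l) x (E i x)) (f x),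
      real_inner_comm (fderiv ℝ (XX f E l) x (E i x)) (ν x), X_f P hx, X_f P hx, X_nu P hx,
      X_nu P hx]
    have hs : ∑ m, (inner ℝ (fderiv ℝ (XX f E k) x (E j x)) (XX f E m x) : ℝ) *
        inner ℝ (XX f E m x) (fderiv ℝ (XX f E l) x (E i x))
        = - ∑ m, Gam f E j k m x * Gam f E i m l x := by
      rw [← Finset.sum_neg_distrib]
      refine Finset.sum_congr rfl fun m _ => ?_
      rw [real_inner_comm (fderiv ℝ (XX f E l) x (E i x)) (XX f E m x), ← Gam_eq, ← Gam_eq,
        G_anti P hx i l m]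
      ring
    rw [hs]
    by_cases h3 : j = k <;> by_cases h4 : i = l <;> simp [h3, h4] <;> ring
  rw [key i j, key j i, par i j, par j i]
  rw [Finset.sum_sub_distrib]
  split_ifs
  all_goals linarith

end frame

/-- BR-G2. -/
theorem g2 : StG2 := by
  intro V f ν c E lam P
  exact
    { smG := smG P
      anti := fun x hx i j k => G_anti P hx i j k
      tors := fun g hg x hx i j => tors P g hg hx i j
      cod := fun x hx i j k => cod P hx i j k
      gauss := fun x hx i j k l => gauss P hx i j k l }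

end Y978.BR
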